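import Pool.Agent.helper24.ISL.Spec2

/-!
# Row ZD: the integral elements are Zariski dense
-/

set_option autoImplicit false

namespace Pool.Agent.ISL

open Matrix Filter Topology

theorem ZD : ZD_stmt := by
  intro n H hyp P hP g
  by_contra hne
  set v : ℤ := MvPolynomial.eval (fun x : Fin n × Fin n => (g : Matrix (Fin n) (Fin n) ℤ) x.1 x.2) P
    with hv
  obtain ⟨q, hqd⟩ : ∃ q : ℕ, q = v.natAbs + 1 := ⟨_, rfl⟩
  have hq : 0 < q := by omega
  obtain ⟨h, hh, γ, hγ, hg⟩ := hyp q hq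
    (Matrix.SpecialLinearGroup.map (Int.castRingHom ℚ) g)
  have hl : g * γ⁻¹ ∈ HZ H := by
    rw [HZ, Subgroup.mem_comap, map_mul, hg, mul_assoc, ← map_mul, mul_inv_cancel, map_one,
      mul_one]
    exact hh
  set l : SL n ℤ := g * γ⁻¹ with hldef
  have hgl : g = l * γ := by rw [hldef, inv_mul_cancel_right]
  have hred : ∀ i : Fin n × Fin n, (((g : Matrix (Fin n) (Fin n) ℤ) i.1 i.2 : ℤ) : ZMod q)
      = (((l : Matrix (Fin n) (Fin n) ℤ) i.1 i.2 : ℤ) : ZMod q) := by
    intro i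
    rw [hgl, Matrix.SpecialLinearGroup.coe_mul, Matrix.mul_apply, Int.cast_sum]
    rw [Finset.sum_eq_single i.2]
    · have h1 := hγ i.2 i.2
      rw [Matrix.one_apply_eq, ← ZMod.intCast_zmod_eq_zero_iff_dvd] at h1
      push_cast at h1
      rw [Int.cast_mul, sub_eq_zero.mp h1, mul_one]
    · intro k _ hk
      have h1 := hγ k i.2
      rw [Matrix.one_apply_ne hk, sub_zero, ← ZMod.intCast_zmod_eq_zero_iff_dvd] at h1
      rw [Int.cast_mul, h1, mul_zero]
    · intro h1
      exact absurd (Finset.mem_univ _) h1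
  have h1 := H48SL.eval_cast q P _ _ hred
  rw [hP l hl, Int.cast_zero, ← hv, ZMod.intCast_zmod_eq_zero_iff_dvd] at h1
  have h2 := Int.natAbs_dvd_natAbs.mpr h1
  rw [Int.natAbs_natCast] at h2
  have h3 := Nat.le_of_dvd (Int.natAbs_pos.mpr hne) h2
  omega

end Pool.Agent.ISL
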